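import Pool.Agent.Helper58.SF.StB

/-!
# Project SF, module RCK: change of the clock
-/

set_option autoImplicit false

namespace Pool.Agent.Helper2.SF

open Set Topology Pool.Agent.Helper13.TR Pool.Agent.Helper58.SF

/-! ### The piecewise linear map -/

/-- the increasing piecewise linear map with `s ↦ s` for `s ≤ a`, `l ↦ c`, `1 ↦ 1` -/
private noncomputable def Gc (a l c s : ℝ) : ℝ :=
  min s a + (min (max s a) l - a) * ((c - a) / (l - a)) + (max s l - l) * ((1 - c) / (1 - l))

section real

variable {a l c s t : ℝ}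

private theorem Gc_le (h1 : a < l) (h : s ≤ a) : Gc a l c s = s := by
  unfold Gc
  rw [min_eq_left h, max_eq_right h, min_eq_left h1.le, max_eq_right (h.trans h1.le)]
  ring

private theorem Gc_mid (h1 : a ≤ s) (h2 : s ≤ l) :
    Gc a l c s = a + (s - a) * ((c - a) / (l - a)) := by
  unfold Gc
  rw [min_eq_right h1, max_eq_left h1, min_eq_left h2, max_eq_right h2]
  ring

private theorem Gc_hi (h1 : a < l) (h : l ≤ s) :
    Gc a l c s = c + (s - l) * ((1 - c) / (1 - l)) := by
  unfold Gc
  rw [min_eq_right (h1.le.trans h), max_eq_left (h1.le.trans h), min_eq_right h, max_eq_left h]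
  have : (l - a) * ((c - a) / (l - a)) = c - a := by
    rw [mul_div_cancel₀]
    exact (sub_pos.2 h1).ne'
  rw [this]
  ring

private theorem Gc_inv (h1 : a < l) (h2 : l < 1) (h3 : a < c) (h4 : c < 1) (s : ℝ) :
    Gc a c l (Gc a l c s) = s := by
  have p1 : (0 : ℝ) < l - a := sub_pos.2 h1
  have p2 : (0 : ℝ) < 1 - l := sub_pos.2 h2
  have p3 : (0 : ℝ) < c - a := sub_pos.2 h3
  have p4 : (0 : ℝ) < 1 - c := sub_pos.2 h4
  rcases le_total s a with h | h
  · rw [Gc_le h1 h, Gc_le h3 h]
  · rcases le_total s l with h' | h'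
    · have e := Gc_mid (c := c) h h'
      have q1 : 0 ≤ (s - a) * ((c - a) / (l - a)) :=
        mul_nonneg (sub_nonneg.2 h) (div_pos p3 p1).le
      have q2 : (s - a) * ((c - a) / (l - a)) ≤ c - a := by
        rw [mul_div_assoc', div_le_iff₀ p1]
        nlinarith
      rw [e, Gc_mid (by linarith) (by linarith)]
      have : (a + (s - a) * ((c - a) / (l - a)) - a) * ((l - a) / (c - a)) = s - a := by
        field_simp
        ring
      rw [this]
      ring
    · have e := Gc_hi (c := c) h1 h'
      have q1 : 0 ≤ (s - l) * ((1 - c) / (1 - l)) :=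
        mul_nonneg (sub_nonneg.2 h') (div_pos p4 p2).le
      rw [e, Gc_hi h3 (by linarith)]
      have : (c + (s - l) * ((1 - c) / (1 - l)) - c) * ((1 - l) / (1 - c)) = s - l := by
        field_simp
        ring
      rw [this]
      ring

private theorem Gc_strict (h1 : a < l) (h2 : l < 1) (h3 : a < c) (h4 : c < 1) :
    StrictMono (Gc a l c) := by
  have p1 : (0 : ℝ) < l - a := sub_pos.2 h1
  have p2 : (0 : ℝ) < 1 - l := sub_pos.2 h2
  have p3 : (0 : ℝ) < c - a := sub_pos.2 h3
  have p4 : (0 : ℝ) < 1 - c := sub_pos.2 h4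
  refine Monotone.strictMono_of_injective ?_ ?_
  · intro s t hst
    unfold Gc
    have q1 : min s a ≤ min t a := min_le_min_right _ hst
    have q2 : min (max s a) l - a ≤ min (max t a) l - a :=
      sub_le_sub_right (min_le_min_right _ (max_le_max_right _ hst)) _
    have q3 : max s l - l ≤ max t l - l := sub_le_sub_right (max_le_max_right _ hst) _
    exact add_le_add (add_le_add q1 (mul_le_mul_of_nonneg_right q2 (div_pos p3 p1).le))
      (mul_le_mul_of_nonneg_right q3 (div_pos p4 p2).le)
  · exact Function.LeftInverse.injective (g := Gc a c l) (Gc_inv h1 h2 h3 h4)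

private theorem Gc_l (h1 : a < l) : Gc a l c l = c := by
  rw [Gc_hi h1 le_rfl]
  ring

private theorem Gc_one (h1 : a < l) (h2 : l < 1) : Gc a l c 1 = 1 := by
  rw [Gc_hi h1 h2.le, mul_div_cancel₀ _ (sub_pos.2 h2).ne']
  ring

end real

private theorem Gc_cont {X : Type} [TopologicalSpace X] {a : ℝ} {l m s : X → ℝ} (hl : Continuous l)
    (hm : Continuous m) (hs : Continuous s) (h1 : ∀ x, a < l x) (h2 : ∀ x, l x < 1) :
    Continuous fun x => Gc a (l x) (m x) (s x) := by
  unfold Gc
  refine Continuous.add (Continuous.add (hs.min continuous_const)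
    (Continuous.mul (((hs.max continuous_const).min hl).sub continuous_const)
      ((hm.sub continuous_const).div (hl.sub continuous_const) fun x => ?_)))
    (Continuous.mul ((hs.max hl).sub hl) ((continuous_const.sub hm).div
      (continuous_const.sub hl) fun x => ?_))
  · exact (sub_pos.2 (h1 x)).ne'
  · exact (sub_pos.2 (h2 x)).ne'

/-! ### The new clock -/

section main

variable {P : Type} [TopologicalSpace P] {r : P → ℝ} {R : ℝ → P → P} {a c : ℝ} {lam : P → ℝ}

private noncomputable def r1 (r : P → ℝ) (R : ℝ → P → P) (a c : ℝ) (lam : P → ℝ) (y : P) : ℝ :=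
  Gc a (lam (R a y)) c (r y)

private noncomputable def R1 (R : ℝ → P → P) (a c : ℝ) (lam : P → ℝ) (t : ℝ) (y : P) : P :=
  R (Gc a c (lam (R a y)) t) y

private theorem lm_eq (F : Flow P r R) (ha : 0 < a) {s : ℝ} (hs : a ≤ s) (y : P) :
    lam (R a (R s y)) = lam (R a y) := by
  rw [F.RR a s y ha hs]

/-- the new level of a point of the trajectory of `y` -/
private theorem r1_R (F : Flow P r R) (ha : 0 < a) (hl : ∀ y, a < lam y ∧ lam y < 1) {s : ℝ}
    (hs : 0 < s) (y : P) :
    r1 r R a c lam (R s y) = Gc a (lam (R a y)) c (min s (r y)) := by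
  unfold r1
  rw [F.rR s y hs]
  rcases le_total a s with h | h
  · rw [lm_eq (lam := lam) F ha h]
  · have : min s (r y) ≤ a := (min_le_left _ _).trans h
    rw [Gc_le (hl _).1 this, Gc_le (hl _).1 this]

/-- the new flow on the trajectory of `y` -/
private theorem R1_R (F : Flow P r R) (ha : 0 < a) (hac : a < c) (hc : c < 1)
    (hl : ∀ y, a < lam y ∧ lam y < 1) {s : ℝ} (hs : 0 < s) (t : ℝ) (y : P) :
    R1 R a c lam t (R s y) = R (Gc a c (lam (R a y)) t) (R s y) := by
  unfold R1
  rcases le_total a s with h | h
  · rw [lm_eq (lam := lam) F ha h]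
  · rcases le_or_gt t a with h' | h'
    · rw [Gc_le hac h', Gc_le hac h']
    · have key : ∀ z : P, r (R s y) ≤ Gc a c (lam (R a z)) t := by
        intro z
        have h1 := Gc_strict hac hc (hl (R a z)).1 (hl (R a z)).2 h'
        rw [Gc_le hac le_rfl] at h1
        rw [F.rR s y hs]
        exact ((min_le_left _ _).trans h).trans h1.le
      rw [F.Rid _ _ (key _), F.Rid _ _ (key _)]

private theorem flow1 (F : Flow P r R) (ha : 0 < a) (hac : a < c) (hc : c < 1)
    (hlc : Continuous lam) (hl : ∀ y, a < lam y ∧ lam y < 1) :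
    Flow P (r1 r R a c lam) (R1 R a c lam) := by
  have hRa : Continuous (R a) := by
    have : Continuous fun y : P => (a, y) := by fun_prop
    exact F.Rc.comp_continuous this fun y => ha
  have hlm : Continuous fun y => lam (R a y) := hlc.comp hRa
  have sm : ∀ y, StrictMono (Gc a (lam (R a y)) c) := fun y => Gc_strict (hl _).1 (hl _).2 hac hc
  have sm' : ∀ y, StrictMono (Gc a c (lam (R a y))) := fun y => Gc_strict hac hc (hl _).1 (hl _).2
  have inv : ∀ y s, Gc a c (lam (R a y)) (Gc a (lam (R a y)) c s) = s :=
    fun y s => Gc_inv (hl _).1 (hl _).2 hac hc s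
  have inv' : ∀ y s, Gc a (lam (R a y)) c (Gc a c (lam (R a y)) s) = s :=
    fun y s => Gc_inv hac hc (hl _).1 (hl _).2 s
  have gpos : ∀ (y : P) (t : ℝ), 0 < t → 0 < Gc a c (lam (R a y)) t := by
    intro y t ht
    have := sm' y ht
    rwa [Gc_le hac ha.le] at this
  refine ⟨?_, ?_, ?_, ?_, ?_, ?_, ?_⟩
  · exact Gc_cont hlm continuous_const F.rc (fun y => (hl _).1) fun y => (hl _).2
  · intro y
    have := sm y (F.pos y)
    rwa [Gc_le (hl _).1 ha.le] at this
  · intro y
    have := sm y (F.lt y)
    rwa [Gc_one (hl _).1 (hl _).2] at this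
  · have h1 : Continuous fun p : ℝ × P => (Gc a c (lam (R a p.2)) p.1, p.2) := by
      refine Continuous.prodMk ?_ continuous_snd
      exact Gc_cont continuous_const (hlm.comp continuous_snd) continuous_fst (fun _ => hac)
        fun _ => hc
    exact F.Rc.comp h1.continuousOn fun p hp => gpos p.2 p.1 hp
  · intro t y ht
    unfold R1
    rw [r1_R F ha hl (gpos y t ht), (sm y).monotone.map_min, inv']
    rfl
  · intro t y ht
    unfold R1
    refine F.Rid _ _ ?_
    have := (sm' y).monotone ht
    unfold r1 at this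
    rwa [inv] at this
  · intro s t y hs hst
    have e : R1 R a c lam t y = R (Gc a c (lam (R a y)) t) y := rfl
    rw [e, R1_R F ha hac hc hl (gpos y t (hs.trans_le hst)), F.RR _ _ y (gpos y s hs)
      ((sm' y).monotone hst)]
    rfl

private theorem up_eq (F : Flow P r R) (ha : 0 < a) (hac : a < c) (hc : c < 1)
    (hl : ∀ y, a < lam y ∧ lam y < 1) (x y : P) :
    y ∈ Up (r1 r R a c lam) (R1 R a c lam) x ↔ y ∈ Up r R x := by
  have sm : ∀ y, StrictMono (Gc a (lam (R a y)) c) := fun y => Gc_strict (hl _).1 (hl _).2 hac hc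
  have sm' : ∀ y, StrictMono (Gc a c (lam (R a y))) := fun y => Gc_strict hac hc (hl _).1 (hl _).2
  have inv : ∀ y s, Gc a c (lam (R a y)) (Gc a (lam (R a y)) c s) = s :=
    fun y s => Gc_inv (hl _).1 (hl _).2 hac hc s
  have inv' : ∀ y s, Gc a (lam (R a y)) c (Gc a c (lam (R a y)) s) = s :=
    fun y s => Gc_inv hac hc (hl _).1 (hl _).2 s
  have rpos : 0 < r1 r R a c lam x := by
    have := sm x (F.pos x)
    rwa [Gc_le (hl _).1 ha.le] at this
  constructor
  · rintro ⟨h1, h2⟩
    set s := Gc a c (lam (R a y)) (r1 r R a c lam x) with hs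
    have hs0 : 0 < s := by
      have := sm' y rpos
      rwa [Gc_le hac ha.le] at this
    have hx : R s y = x := h2
    have hsr : s ≤ r y := by
      have := (sm' y).monotone h1
      unfold r1 at this
      rw [inv] at this
      exact this
    have hrx : r x = s := by
      rw [← hx, F.rR s y hs0, min_eq_left hsr]
    refine ⟨hrx.trans_le hsr, ?_⟩
    rw [hrx]
    exact hx
  · rintro ⟨h1, h2⟩
    have hx := F.pos x
    have e : r1 r R a c lam x = Gc a (lam (R a y)) c (r x) := by
      conv_lhs => rw [← h2]
      rw [r1_R F ha hl hx, min_eq_left h1]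
    refine ⟨?_, ?_⟩
    · rw [e]
      exact (sm y).monotone h1
    · unfold R1
      rw [e, inv]
      exact h2

theorem hRCK : StBEX → StFLW → StRCK := by
  intro hBEX _ P _ r R dg hGB a c lam ha hac hc hlc hl
  have F : Flow P r R := hGB.box.toFlow
  have := hGB.met
  have F1 := flow1 F ha hac hc hlc hl
  have sm : ∀ y, StrictMono (Gc a (lam (R a y)) c) := fun y => Gc_strict (hl _).1 (hl _).2 hac hc
  have sm' : ∀ y, StrictMono (Gc a c (lam (R a y))) := fun y => Gc_strict hac hc (hl _).1 (hl _).2
  have inv : ∀ y s, Gc a c (lam (R a y)) (Gc a (lam (R a y)) c s) = s :=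
    fun y s => Gc_inv (hl _).1 (hl _).2 hac hc s
  have inv' : ∀ y s, Gc a (lam (R a y)) c (Gc a c (lam (R a y)) s) = s :=
    fun y s => Gc_inv hac hc (hl _).1 (hl _).2 s
  have cR : ∀ t : ℝ, 0 < t → Continuous (R t) := by
    intro t ht
    have : Continuous fun y : P => (t, y) := by fun_prop
    exact F.Rc.comp_continuous this fun y => ht
  have cR1 : ∀ t : ℝ, 0 < t → Continuous (R1 R a c lam t) := by
    intro t ht
    have : Continuous fun y : P => (t, y) := by fun_prop
    exact F1.Rc.comp_continuous this fun y => ht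
  have hup : Up (r1 r R a c lam) (R1 R a c lam) = Up r R := by
    funext x
    ext y
    exact up_eq F ha hac hc hl x y
  have hdn : Dn (r1 r R a c lam) (R1 R a c lam) = Dn r R := by
    funext x
    ext y
    exact up_eq F ha hac hc hl y x
  -- low levels
  have low : ∀ (y : P) (s : ℝ), s ≤ a → (s ≤ r1 r R a c lam y ↔ s ≤ r y) := by
    intro y s hs
    have : s = Gc a (lam (R a y)) c s := (Gc_le (hl _).1 hs).symm
    conv_lhs => rw [this]
    exact (sm y).le_iff_le
  have loweq : ∀ (y : P) (s : ℝ), s ≤ a → (r1 r R a c lam y = s ↔ r y = s) := by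
    intro y s hs
    have : s = Gc a (lam (R a y)) c s := (Gc_le (hl _).1 hs).symm
    conv_lhs => rw [this]
    exact (sm y).injective.eq_iff
  refine ⟨r1 r R a c lam, R1 R a c lam, ?_, hup, hdn, ?_⟩
  · refine ⟨⟨hGB.met, hGB.lco, hGB.lpc, ⟨F1, ?_⟩, hGB.hm, hGB.ws, hGB.lh⟩, hGB.pc, ?_⟩
    · -- compactness
      intro t t' C ht htt' ht' hC hCt
      set s0 := min t a with hs0
      have hs0p : 0 < s0 := lt_min ht ha
      have hs0a : s0 ≤ a := min_le_right _ _
      have hs0t : s0 ≤ t := min_le_left _ _
      have hCr : ∀ v ∈ C, s0 ≤ r v := by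
        intro v hv
        rw [← low v s0 hs0a, hCt v hv]
        exact hs0t
      have hC0 : IsCompact (R s0 '' C) := hC.image (cR s0 hs0p)
      have hC0r : ∀ v ∈ R s0 '' C, r v = s0 := by
        rintro _ ⟨v, hv, rfl⟩
        rw [F.rR s0 v hs0p, min_eq_left (hCr v hv)]
      have hKa := hGB.box.cpt s0 a (R s0 '' C) hs0p hs0a (hac.trans hc) hC0 hC0r
      have hcont : Continuous fun v : P => Gc a c (lam v) t' :=
        Gc_cont continuous_const hlc continuous_const (fun _ => hac) fun _ => hc
      have hlt : ∀ v : P, Gc a c (lam v) t' < 1 := by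
        intro v
        have := Gc_strict hac hc (hl v).1 (hl v).2 ht'
        rwa [Gc_one hac hc] at this
      obtain ⟨t1, ht1, hmax⟩ : ∃ t1 : ℝ, t1 < 1 ∧
          ∀ v ∈ {y : P | s0 ≤ r y ∧ r y ≤ a ∧ R s0 y ∈ R s0 '' C}, Gc a c (lam v) t' ≤ t1 := by
        rcases Set.eq_empty_or_nonempty {y : P | s0 ≤ r y ∧ r y ≤ a ∧ R s0 y ∈ R s0 '' C} with h | h
        · exact ⟨0, one_pos, fun v hv => by rw [h] at hv; exact hv.elim⟩
        · obtain ⟨v0, _, hv0⟩ := hKa.exists_isMaxOn h hcont.continuousOn
          exact ⟨_, hlt v0, fun v hv => hv0 hv⟩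
      have hbig := hGB.box.cpt s0 (max t1 s0) (R s0 '' C) hs0p (le_max_right _ _)
        (max_lt ht1 (hs0a.trans_lt (hac.trans hc))) hC0 hC0r
      refine hbig.of_isClosed_subset ?_ ?_
      · exact (isClosed_le continuous_const F1.rc).inter
          ((isClosed_le F1.rc continuous_const).inter (hC.isClosed.preimage (cR1 t ht)))
      · rintro y ⟨h1, h2, h3⟩
        have hr : s0 ≤ r y := (low y s0 hs0a).1 (hs0t.trans h1)
        have hg : s0 ≤ Gc a c (lam (R a y)) t := by
          have := (sm' y).monotone hs0t
          rwa [Gc_le hac hs0a] at this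
        have hR0 : R s0 (R1 R a c lam t y) = R s0 y := F.RR s0 _ y hs0p hg
        have hmem : R s0 y ∈ R s0 '' C := ⟨_, h3, hR0⟩
        refine ⟨hr, ?_, hmem⟩
        have hv : R a y ∈ {y : P | s0 ≤ r y ∧ r y ≤ a ∧ R s0 y ∈ R s0 '' C} := by
          refine ⟨?_, ?_, ?_⟩
          · rw [F.rR a y ha]
            exact le_min hs0a hr
          · rw [F.rR a y ha]
            exact min_le_left _ _
          · rw [F.RR s0 a y hs0p hs0a]
            exact hmem
        have h4 := hmax _ hv
        have h5 : r y ≤ Gc a c (lam (R a y)) t' := by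
          have := (sm' y).monotone h2
          unfold r1 at this
          rwa [inv] at this
        exact (h5.trans h4).trans (le_max_left _ _)
    · -- levels are not compact
      intro t ht ht1 hcomp
      rcases le_or_gt t a with h | h
      · refine hGB.nc t ht ht1 ?_
        have : {y : P | r y = t} = {y : P | r1 r R a c lam y = t} := by
          ext y
          exact (loweq y t h).symm
        rw [this]
        exact hcomp
      · refine hGB.nc a ha (hac.trans hc) ?_
        have : {y : P | r y = a} = R a '' {y : P | r1 r R a c lam y = t} := by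
          ext v
          constructor
          · intro hv
            have hv' : r v = a := hv
            have hRv : R a v = v := F.Rid a v hv'.le
            have g1 : a ≤ Gc a c (lam v) t := by
              have := (Gc_strict hac hc (hl v).1 (hl v).2).monotone h.le
              rwa [Gc_le hac le_rfl] at this
            have g2 : Gc a c (lam v) t < 1 := by
              have := Gc_strict hac hc (hl v).1 (hl v).2 ht1
              rwa [Gc_one hac hc] at this
            obtain ⟨y, hy, hry⟩ := (hBEX P r R dg hGB.toSB).1 v (Gc a c (lam v) t)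
              (by rw [hv']; exact g1) g2
            have hy2 : R a y = v := by
              have := hy.2
              rwa [hv'] at this
            refine ⟨y, ?_, hy2⟩
            show r1 r R a c lam y = t
            unfold r1
            rw [hy2, hry]
            exact Gc_inv hac hc (hl v).1 (hl v).2 t
          · rintro ⟨y, hy, rfl⟩
            have hy' : r1 r R a c lam y = t := hy
            have : a ≤ r y := by
              rw [← low y a le_rfl, hy']
              exact h.le
            show r (R a y) = a
            rw [F.rR a y ha, min_eq_left this]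
        rw [this]
        exact hcomp.image (cR a ha)
  · intro y
    have : c = Gc a (lam (R a y)) c (lam (R a y)) := (Gc_l (hl _).1).symm
    constructor
    · intro h
      have h' : Gc a (lam (R a y)) c (r y) = Gc a (lam (R a y)) c (lam (R a y)) := by
        rw [← this]
        exact h
      exact (sm y).injective h'
    · intro h
      show Gc a (lam (R a y)) c (r y) = c
      rw [h]
      exact this.symm

end main

end Pool.Agent.Helper2.SF
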